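import Mathlib
import Pool.Agent.H633R3.DiscDefs

/-!
Item (ii), second set: the set `{n ^ 2 - 1}` is bad. The unimodular function is the completely
multiplicative function with value `1` at `2` and at the primes `p ≡ 1, 3 (mod 8)` and `-1` at the
primes `p ≡ 5, 7 (mod 8)`.
-/

set_option autoImplicit false
set_option maxHeartbeats 4000000

namespace Pool.Agent.Results.MP_726576_nt.SquaresMinusOne

open Finset Pool.Agent.H633R3.Disc

/-- exponent of the character modulo 8 -/
def lg (x : ℕ) : ZMod 2 := if x % 8 = 1 ∨ x % 8 = 3 then 0 else 1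

theorem lg_mul {m n : ℕ} (hm : ¬ 2 ∣ m) (hn : ¬ 2 ∣ n) : lg (m * n) = lg m + lg n := by
  have h1 : m % 8 = 1 ∨ m % 8 = 3 ∨ m % 8 = 5 ∨ m % 8 = 7 := by omega
  have h2 : n % 8 = 1 ∨ n % 8 = 3 ∨ n % 8 = 5 ∨ n % 8 = 7 := by omega
  unfold lg
  rw [Nat.mul_mod]
  rcases h1 with h1 | h1 | h1 | h1 <;> rcases h2 with h2 | h2 | h2 | h2 <;> rw [h1, h2] <;> decide

/-- the exponent of the multiplicative function -/
def psi (m : ℕ) : ZMod 2 := lg (ordCompl[2] m)

theorem psi_mul {m n : ℕ} (hm : 1 ≤ m) (hn : 1 ≤ n) : psi (m * n) = psi m + psi n := by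
  unfold psi
  rw [Nat.ordCompl_mul, lg_mul (Nat.not_dvd_ordCompl Nat.prime_two (by omega))
    (Nat.not_dvd_ordCompl Nat.prime_two (by omega))]

theorem psi_two_mul {m : ℕ} (hm : 1 ≤ m) : psi (2 * m) = psi m := by
  rw [psi_mul (by norm_num) hm]
  have : psi 2 = 0 := by
    unfold psi
    have : ordCompl[2] 2 = 1 := by
      rw [Nat.Prime.factorization_self Nat.prime_two]
      norm_num
    rw [this]
    decide
  rw [this, zero_add]

theorem psi_odd {m : ℕ} (hm : m % 2 = 1) : psi m = lg m := by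
  unfold psi
  have : ¬ 2 ∣ m := by omega
  rw [Nat.factorization_eq_zero_of_not_dvd this, pow_zero, Nat.div_one]

theorem lg_add (s i : ℕ) : lg (8 * s + i) = lg i := by
  unfold lg
  rw [Nat.mul_add_mod]

/-- the multiplicative function as a complex number -/
noncomputable def A (m : ℕ) : ℂ := ((ZMod.toCircle (psi m) : Circle) : ℂ)

theorem sum_chi : ((ZMod.toCircle (0 : ZMod 2) : Circle) : ℂ) +
    ((ZMod.toCircle (1 : ZMod 2) : Circle) : ℂ) = 0 := by
  have hsum : (∑ c : ZMod 2, ((ZMod.toCircle c : Circle) : ℂ)) = 0 := by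
    have h1 : (∑ c : ZMod 2, (ZMod.stdAddChar c : ℂ)) = 0 := by
      rw [AddChar.sum_eq_zero_iff_ne_zero]
      intro h0
      have h2 : (ZMod.stdAddChar (1 : ZMod 2) : ℂ) = ZMod.stdAddChar (0 : ZMod 2) := by
        rw [h0]
        simp
      exact absurd (ZMod.injective_stdAddChar h2) (by decide)
    exact h1
  rw [← hsum]
  exact (Fin.sum_univ_two (fun c : Fin 2 => ((ZMod.toCircle (N := 2) c : Circle) : ℂ))).symm

theorem chi_zero : ((ZMod.toCircle (0 : ZMod 2) : Circle) : ℂ) = 1 := by simp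

theorem chi_one : ((ZMod.toCircle (1 : ZMod 2) : Circle) : ℂ) = -1 := by
  have := sum_chi
  rw [chi_zero] at this
  linear_combination this

theorem A_mul {m n : ℕ} (hm : 1 ≤ m) (hn : 1 ≤ n) : A (m * n) = A m * A n := by
  unfold A
  rw [psi_mul hm hn, AddChar.map_add_eq_mul, Circle.coe_mul]

theorem A_two {m : ℕ} (hm : 1 ≤ m) : A (2 * m) = A m := by
  unfold A
  rw [psi_two_mul hm]

theorem A_odd {m : ℕ} (s i : ℕ) (h : m = 8 * s + i) (hi : i % 2 = 1) :
    A m = if lg i = 0 then 1 else -1 := by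
  unfold A
  rw [psi_odd (by omega), h, lg_add]
  have : lg i = 0 ∨ lg i = 1 := by
    generalize lg i = z
    revert z
    decide
  rcases this with h | h <;> rw [h]
  · rw [chi_zero, if_pos rfl]
  · rw [chi_one, if_neg (by decide)]

/-- four consecutive values of `k = 4 j - 1, 4 j, 4 j + 1, 4 j + 2` -/
theorem quad (s i : ℕ) (T : ℂ) (j : ℕ) (hj : j = 8 * s + i) (hi : 1 ≤ i)
    (hT : (A j) * (A (2 * j - 1) + A (2 * j + 1)) = T) :
    A ((4 * j - 2) * (4 * j)) + A ((4 * j - 1) * (4 * j + 1)) + A ((4 * j) * (4 * j + 2)) +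
      A ((4 * j + 1) * (4 * j + 3)) = T := by
  have e1 : A (4 * j - 2) = A (2 * j - 1) := by
    have : 4 * j - 2 = 2 * (2 * j - 1) := by omega
    rw [this, A_two (by omega)]
  have e2 : A (4 * j) = A j := by
    have : 4 * j = 2 * (2 * j) := by ring
    rw [this, A_two (by omega), A_two (by omega)]
  have e3 : A (4 * j + 2) = A (2 * j + 1) := by
    have : 4 * j + 2 = 2 * (2 * j + 1) := by ring
    rw [this, A_two (by omega)]
  have e4 : A (4 * j - 1) * A (4 * j + 1) = -1 := by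
    rcases Nat.even_or_odd' j with ⟨t, ht | ht⟩
    · rw [A_odd (m := 4 * j - 1) (t - 1) 7 (by omega) (by norm_num),
        A_odd (m := 4 * j + 1) t 1 (by omega) (by norm_num)]
      have a1 : lg 7 = 1 := by decide
      have a2 : lg 1 = 0 := by decide
      rw [a1, a2]
      simp
    · rw [A_odd (m := 4 * j - 1) t 3 (by omega) (by norm_num),
        A_odd (m := 4 * j + 1) t 5 (by omega) (by norm_num)]
      have a1 : lg 3 = 0 := by decide
      have a2 : lg 5 = 1 := by decide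
      rw [a1, a2]
      simp
  have e5 : A (4 * j + 1) * A (4 * j + 3) = 1 := by
    rcases Nat.even_or_odd' j with ⟨t, ht | ht⟩
    · rw [A_odd (m := 4 * j + 1) t 1 (by omega) (by norm_num),
        A_odd (m := 4 * j + 3) t 3 (by omega) (by norm_num)]
      have a1 : lg 3 = 0 := by decide
      have a2 : lg 1 = 0 := by decide
      rw [a1, a2]
      simp
    · rw [A_odd (m := 4 * j + 1) t 5 (by omega) (by norm_num),
        A_odd (m := 4 * j + 3) t 7 (by omega) (by norm_num)]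
      have a1 : lg 5 = 1 := by decide
      have a2 : lg 7 = 1 := by decide
      rw [a1, a2]
      simp
  rw [A_mul (m := 4 * j - 2) (by omega) (by omega), A_mul (m := 4 * j - 1) (by omega) (by omega),
    A_mul (m := 4 * j) (by omega) (by omega), A_mul (m := 4 * j + 1) (by omega) (by omega),
    e1, e2, e3, e4, e5, ← hT]
  ring

theorem even_j (s i : ℕ) (hi : 1 ≤ i) (h2 : i % 2 = 0) :
    A (8 * s + i) * (A (2 * (8 * s + i) - 1) + A (2 * (8 * s + i) + 1)) = 0 := by
  have : A (2 * (8 * s + i) - 1) + A (2 * (8 * s + i) + 1) = 0 := by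
    have h4 : i % 4 = 0 ∨ i % 4 = 2 := by omega
    rcases h4 with h | h
    · rw [A_odd (m := 2 * (8 * s + i) - 1) ((2 * (8 * s + i)) / 8 - 1) 7 (by omega) (by norm_num),
        A_odd (m := 2 * (8 * s + i) + 1) ((2 * (8 * s + i)) / 8) 1 (by omega) (by norm_num)]
      have a1 : lg 7 = 1 := by decide
      have a2 : lg 1 = 0 := by decide
      rw [a1, a2]
      simp
    · rw [A_odd (m := 2 * (8 * s + i) - 1) ((2 * (8 * s + i)) / 8) 3 (by omega) (by norm_num),
        A_odd (m := 2 * (8 * s + i) + 1) ((2 * (8 * s + i)) / 8) 5 (by omega) (by norm_num)]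
      have a1 : lg 3 = 0 := by decide
      have a2 : lg 5 = 1 := by decide
      rw [a1, a2]
      simp
  rw [this, mul_zero]

theorem odd_j (s : ℕ) :
    A (8 * s + 1) * (A (2 * (8 * s + 1) - 1) + A (2 * (8 * s + 1) + 1)) = 2 ∧
    A (8 * s + 3) * (A (2 * (8 * s + 3) - 1) + A (2 * (8 * s + 3) + 1)) = -2 ∧
    A (8 * s + 5) * (A (2 * (8 * s + 5) - 1) + A (2 * (8 * s + 5) + 1)) = -2 ∧
    A (8 * s + 7) * (A (2 * (8 * s + 7) - 1) + A (2 * (8 * s + 7) + 1)) = 2 := by
  have a1 : lg 1 = 0 := by decide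
  have a3 : lg 3 = 0 := by decide
  have a5 : lg 5 = 1 := by decide
  have a7 : lg 7 = 1 := by decide
  have g1 : ∀ t m : ℕ, m = 8 * t + 1 → A m = 1 := by
    intro t m h
    rw [A_odd t 1 h (by norm_num), a1, if_pos rfl]
  have g3 : ∀ t m : ℕ, m = 8 * t + 3 → A m = 1 := by
    intro t m h
    rw [A_odd t 3 h (by norm_num), a3, if_pos rfl]
  have g5 : ∀ t m : ℕ, m = 8 * t + 5 → A m = -1 := by
    intro t m h
    rw [A_odd t 5 h (by norm_num), a5, if_neg (by decide)]
  have g7 : ∀ t m : ℕ, m = 8 * t + 7 → A m = -1 := by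
    intro t m h
    rw [A_odd t 7 h (by norm_num), a7, if_neg (by decide)]
  refine ⟨?_, ?_, ?_, ?_⟩
  · rw [g1 s _ rfl, g1 (2 * s) (2 * (8 * s + 1) - 1) (by omega),
      g3 (2 * s) (2 * (8 * s + 1) + 1) (by omega)]
    norm_num
  · rw [g3 s _ rfl, g5 (2 * s) (2 * (8 * s + 3) - 1) (by omega),
      g7 (2 * s) (2 * (8 * s + 3) + 1) (by omega)]
    norm_num
  · rw [g5 s _ rfl, g1 (2 * s + 1) (2 * (8 * s + 5) - 1) (by omega),
      g3 (2 * s + 1) (2 * (8 * s + 5) + 1) (by omega)]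
    norm_num
  · rw [g7 s _ rfl, g5 (2 * s + 1) (2 * (8 * s + 7) - 1) (by omega),
      g7 (2 * s + 1) (2 * (8 * s + 7) + 1) (by omega)]
    norm_num

theorem sum32 (f : ℕ → ℂ) (h0 : f 0 + f (0 + 1) + f (0 + 2) + f (0 + 3) = 2)
    (h1 : f 4 + f (4 + 1) + f (4 + 2) + f (4 + 3) = 0)
    (h2 : f 8 + f (8 + 1) + f (8 + 2) + f (8 + 3) = -2)
    (h3 : f 12 + f (12 + 1) + f (12 + 2) + f (12 + 3) = 0)
    (h4 : f 16 + f (16 + 1) + f (16 + 2) + f (16 + 3) = -2)
    (h5 : f 20 + f (20 + 1) + f (20 + 2) + f (20 + 3) = 0)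
    (h6 : f 24 + f (24 + 1) + f (24 + 2) + f (24 + 3) = 2)
    (h7 : f 28 + f (28 + 1) + f (28 + 2) + f (28 + 3) = 0) :
    ∑ j ∈ range 32, f j = 0 := by
  simp only [Finset.sum_range_succ, Finset.sum_range_zero, zero_add]
  norm_num at h0 h1 h2 h3 h4 h5 h6 h7
  linear_combination h0 + h1 + h2 + h3 + h4 + h5 + h6 + h7

/-- **Item (ii), second set.** The set `{n ^ 2 - 1 : n ≥ 1}`, without the value `0`, is bad. -/
theorem result : Bad {k : ℕ | 1 ≤ k ∧ ∃ n : ℕ, 1 ≤ n ∧ k = n ^ 2 - 1} := by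
  have hφ : StrictMono (fun i : ℕ => (i + 1) * (i + 3)) := by
    intro i j hij
    show (i + 1) * (i + 3) < (j + 1) * (j + 3)
    nlinarith
  refine bad_of_enum (φ := fun i : ℕ => (i + 1) * (i + 3)) (C := ((1 + 32 : ℕ) : ℝ)) hφ
    (by norm_num) ?_ (fun m => ZMod.toCircle (psi m)) ?_ ?_
  · ext k
    simp only [Set.mem_ofPred_eq, Set.mem_range]
    constructor
    · rintro ⟨h1, n, hn, rfl⟩
      have hn2 : 2 ≤ n := by
        by_contra h
        have : n = 1 := by omega
        subst this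
        simp at h1
      obtain ⟨m, rfl⟩ := Nat.exists_eq_add_of_le hn2
      refine ⟨m, ?_⟩
      have : (2 + m) ^ 2 = (m + 1) * (m + 3) + 1 := by ring
      omega
    · rintro ⟨i, rfl⟩
      refine ⟨by nlinarith, i + 2, by omega, ?_⟩
      have : (i + 2) ^ 2 = (i + 1) * (i + 3) + 1 := by ring
      omega
  · intro m n hm hn
    rw [psi_mul hm hn, AddChar.map_add_eq_mul]
  · intro N
    have hF : ∀ N : ℕ, ‖∑ i ∈ range N, A ((i + 1 + 1) * (i + 1 + 3))‖ ≤ (32 : ℕ) := by
      refine block_bound (F := fun i : ℕ => A ((i + 1 + 1) * (i + 1 + 3)))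
        (fun n => (Circle.norm_coe _).le) (by norm_num) ?_
      intro s
      obtain ⟨o1, o3, o5, o7⟩ := odd_j s
      have q1 := quad s 1 _ (8 * s + 1) rfl (by norm_num) o1
      have q2 := quad s 2 _ (8 * s + 2) rfl (by norm_num) (even_j s 2 (by norm_num) (by norm_num))
      have q3 := quad s 3 _ (8 * s + 3) rfl (by norm_num) o3
      have q4 := quad s 4 _ (8 * s + 4) rfl (by norm_num) (even_j s 4 (by norm_num) (by norm_num))
      have q5 := quad s 5 _ (8 * s + 5) rfl (by norm_num) o5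
      have q6 := quad s 6 _ (8 * s + 6) rfl (by norm_num) (even_j s 6 (by norm_num) (by norm_num))
      have q7 := quad s 7 _ (8 * s + 7) rfl (by norm_num) o7
      have q8 := quad s 8 _ (8 * s + 8) rfl (by norm_num) (even_j s 8 (by norm_num) (by norm_num))
      have step : ∀ (m : ℕ) (r : ℕ), r = 4 * m →
          A ((32 * s + r + 1 + 1) * (32 * s + r + 1 + 3)) +
          A ((32 * s + (r + 1) + 1 + 1) * (32 * s + (r + 1) + 1 + 3)) +
          A ((32 * s + (r + 2) + 1 + 1) * (32 * s + (r + 2) + 1 + 3)) +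
          A ((32 * s + (r + 3) + 1 + 1) * (32 * s + (r + 3) + 1 + 3)) =
          A ((4 * (8 * s + (m + 1)) - 2) * (4 * (8 * s + (m + 1)))) +
          A ((4 * (8 * s + (m + 1)) - 1) * (4 * (8 * s + (m + 1)) + 1)) +
          A ((4 * (8 * s + (m + 1))) * (4 * (8 * s + (m + 1)) + 2)) +
          A ((4 * (8 * s + (m + 1)) + 1) * (4 * (8 * s + (m + 1)) + 3)) := by
        intro m r hr
        have h1 : 32 * s + r + 1 + 1 = 4 * (8 * s + (m + 1)) - 2 := by omega
        have h2 : 32 * s + r + 1 + 3 = 4 * (8 * s + (m + 1)) := by omega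
        have h3 : 32 * s + (r + 1) + 1 + 1 = 4 * (8 * s + (m + 1)) - 1 := by omega
        have h4 : 32 * s + (r + 1) + 1 + 3 = 4 * (8 * s + (m + 1)) + 1 := by omega
        have h5 : 32 * s + (r + 2) + 1 + 1 = 4 * (8 * s + (m + 1)) := by omega
        have h6 : 32 * s + (r + 2) + 1 + 3 = 4 * (8 * s + (m + 1)) + 2 := by omega
        have h7 : 32 * s + (r + 3) + 1 + 1 = 4 * (8 * s + (m + 1)) + 1 := by omega
        have h8 : 32 * s + (r + 3) + 1 + 3 = 4 * (8 * s + (m + 1)) + 3 := by omega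
        rw [h1, h2, h3, h4, h5, h6, h7, h8]
      exact sum32 (fun r => A ((32 * s + r + 1 + 1) * (32 * s + r + 1 + 3)))
        ((step 0 0 rfl).trans q1) ((step 1 4 rfl).trans q2) ((step 2 8 rfl).trans q3)
        ((step 3 12 rfl).trans q4) ((step 4 16 rfl).trans q5) ((step 5 20 rfl).trans q6)
        ((step 6 24 rfl).trans q7) ((step 7 28 rfl).trans q8)
    rcases N with _ | N
    · simp
    · rw [Finset.sum_range_succ']
      refine (norm_add_le _ _).trans ?_
      have h1 := hF N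
      have h2 : ‖(((fun m => ZMod.toCircle (psi m)) ((0 + 1) * (0 + 3)) : Circle) : ℂ)‖ = 1 :=
        Circle.norm_coe _
      push_cast at h1 ⊢
      have h3 : ‖∑ i ∈ range N, (((fun m => ZMod.toCircle (psi m)) ((i + 1 + 1) * (i + 1 + 3)) : Circle) : ℂ)‖
          ≤ 32 := h1
      linarith

end Pool.Agent.Results.MP_726576_nt.SquaresMinusOne
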