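import Mathlib
import Pool.Agent.H633R3.DiscDefs

/-!
Item (ii), first set: the set `{n ^ 2 + 1}` is bad. The unimodular function is
`m ↦ (-1) ^ v`, where `v` is the exponent of `2` in `m`.
-/

set_option autoImplicit false
set_option maxHeartbeats 4000000

namespace Pool.Agent.Results.MP_726576_nt.SquaresPlusOne

open Finset Pool.Agent.H633R3.Disc

/-- the exponent of `2` modulo `2` -/
def psi (m : ℕ) : ZMod 2 := (m.factorization 2 : ZMod 2)

theorem psi_mul {m n : ℕ} (hm : 1 ≤ m) (hn : 1 ≤ n) : psi (m * n) = psi m + psi n := by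
  unfold psi
  rw [Nat.factorization_mul (by omega) (by omega), Finsupp.add_apply]
  push_cast
  rfl

theorem psi_odd {m : ℕ} (hm : m % 2 = 1) : psi m = 0 := by
  unfold psi
  rw [Nat.factorization_eq_zero_of_not_dvd (by omega)]
  rfl

theorem psi_two : psi 2 = 1 := by
  unfold psi
  rw [Nat.Prime.factorization_self Nat.prime_two]
  rfl

theorem sum_chi : ((ZMod.toCircle (0 : ZMod 2) : Circle) : ℂ) +
    ((ZMod.toCircle (1 : ZMod 2) : Circle) : ℂ) = 0 := by
  have hsum : (∑ c : ZMod 2, ((ZMod.toCircle c : Circle) : ℂ)) = 0 := by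
    have h1 : (∑ c : ZMod 2, (ZMod.stdAddChar c : ℂ)) = 0 := by
      rw [AddChar.sum_eq_zero_iff_ne_zero]
      intro h0
      have h2 : (ZMod.stdAddChar (1 : ZMod 2) : ℂ) = ZMod.stdAddChar (0 : ZMod 2) := by
        rw [h0]
        simp
      exact absurd (ZMod.injective_stdAddChar h2) (by decide)
    exact h1
  rw [← hsum]
  exact (Fin.sum_univ_two (fun c : Fin 2 => ((ZMod.toCircle (N := 2) c : Circle) : ℂ))).symm

/-- **Item (ii), first set.** The set `{n ^ 2 + 1 : n ≥ 1}` is bad. -/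
theorem result : Bad {k : ℕ | ∃ n : ℕ, 1 ≤ n ∧ k = n ^ 2 + 1} := by
  have hφ : StrictMono (fun i : ℕ => (i + 1) ^ 2 + 1) := by
    intro i j hij
    show (i + 1) ^ 2 + 1 < (j + 1) ^ 2 + 1
    nlinarith
  refine bad_of_enum (φ := fun i : ℕ => (i + 1) ^ 2 + 1) (C := ((2 : ℕ) : ℝ)) hφ (by norm_num) ?_
    (fun m => ZMod.toCircle (psi m)) ?_ ?_
  · ext k
    simp only [Set.mem_ofPred_eq, Set.mem_range]
    constructor
    · rintro ⟨n, hn, rfl⟩
      exact ⟨n - 1, by rw [Nat.sub_add_cancel hn]⟩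
    · rintro ⟨i, rfl⟩
      exact ⟨i + 1, by omega, rfl⟩
  · intro m n hm hn
    rw [psi_mul hm hn, AddChar.map_add_eq_mul]
  · refine block_bound (F := fun i : ℕ => ((ZMod.toCircle (psi ((i + 1) ^ 2 + 1)) : Circle) : ℂ))
      (fun n => (Circle.norm_coe _).le) (by norm_num) ?_
    intro s
    have h0 : psi ((2 * s + 0 + 1) ^ 2 + 1) = 1 := by
      have : (2 * s + 0 + 1) ^ 2 + 1 = 2 * (2 * (s ^ 2 + s) + 1) := by ring
      rw [this, psi_mul (by norm_num) (by omega), psi_two, psi_odd (by omega), add_zero]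
    have h1 : psi ((2 * s + 1 + 1) ^ 2 + 1) = 0 := by
      apply psi_odd
      have : (2 * s + 1 + 1) ^ 2 + 1 = 2 * (2 * (s + 1) ^ 2) + 1 := by ring
      omega
    simp only [Finset.sum_range_succ, Finset.sum_range_zero, zero_add]
    rw [h0, h1, add_comm]
    exact sum_chi

end Pool.Agent.Results.MP_726576_nt.SquaresPlusOne
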